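import Pool.Agent.Results.MP_4ab349_nt.AllHeightsLaw
import Pool.Agent.Y854.GM.Win

/-!
# ALL abc-triples, of whatever height, whose radical is in windows around thin sequences

For every `δ > 0` there is `ν > 0` such that for every sequence `v ≥ 1` of exponent of convergence at most `τ` (for
`v_i = (i + 1) ^ a` this is `1 / a`, for `v_i = b ^ i` it is `0`) and every `ρ < 1`, outside a set of `α > 0` of Hausdorff
dimension at most `(2/3 - ν + τ) / (1 - ρ)` the following holds for all but finitely many `i`: ALL abc-triples `(a, b, c)`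
with `|rad (abc) - α v_i| ≤ v_i ^ ρ`, of whatever height they are, satisfy `rad (abc) > c ^ (1 - 1 / √(log c))`, that is
`T(a, b, c) < 1`, and even `T(a, b, c) < -(2 - δ) √(log c)`.

The number of exceptions is from the starting result `AllHeightsLaw`.
-/

set_option autoImplicit false

namespace Pool.Agent.Results.MP_4ab349_nt.RadicalsInWindows

open AllHeightsLaw (rad T triples)

/-- the exponent of convergence of the sequence `v` is at most `τ` -/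
def ExpLe (v : ℕ → ℝ) (τ : ℝ) : Prop := ∀ t : ℝ, τ < t → Summable (fun n : ℕ => (v n) ^ (-t))

/-- **Theorem.** For every `δ > 0` there is `ν > 0` such that for every sequence `v ≥ 1` of exponent of convergence at most
`τ ≥ 0` and every `ρ < 1` there is a set `E ⊂ ℝ` of Hausdorff dimension at most `(2/3 - ν + τ) / (1 - ρ)` with: for each
`α > 0` outside `E`, for all but finitely many `i`, ALL coprime `1 ≤ a ≤ b`, `c = a + b`, with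
`|rad (abc) - α v_i| ≤ v_i ^ ρ` satisfy `rad (abc) > c ^ (1 - 1 / √(log c))` and `T(a, b, c) < -(2 - δ) √(log c)`. The
sequences `v_i = (i + 1) ^ a` and `v_i = b ^ i` have exponent of convergence at most `1 / a` and `0`. -/
theorem result :
    (∀ δ : ℝ, 0 < δ → ∃ ν : ℝ, 0 < ν ∧
      ∀ (v : ℕ → ℝ) (τ ρ : ℝ), (∀ i, 1 ≤ v i) → 0 ≤ τ → ExpLe v τ → ρ < 1 →
      ∃ E : Set ℝ, dimH E ≤ ENNReal.ofReal ((2 / 3 - ν + τ) / (1 - ρ)) ∧
        ∀ α : ℝ, 0 < α → α ∉ E → ∃ i₀ : ℕ, ∀ i : ℕ, i₀ ≤ i → ∀ a b : ℕ, 0 < a → a ≤ b → Nat.Coprime a b →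
          |(rad (a * b * (a + b)) : ℝ) - α * v i| ≤ (v i) ^ ρ →
            (((a + b : ℕ) : ℝ) ^ (1 - 1 / Real.sqrt (Real.log ((a + b : ℕ) : ℝ))) < (rad (a * b * (a + b)) : ℝ)) ∧
            T a b (a + b) < -(2 - δ) * Real.sqrt (Real.log ((a + b : ℕ) : ℝ))) ∧
    (∀ a : ℝ, 0 < a → ExpLe (fun n : ℕ => ((n : ℝ) + 1) ^ a) (1 / a)) ∧
    (∀ b : ℝ, 1 < b → ExpLe (fun n : ℕ => b ^ n) 0) := by
  refine ⟨fun δ hδ => ?_, fun κ hκ => Pool.Agent.Y854.GM.expLe_pow κ hκ,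
    fun b hb => Pool.Agent.Y854.GM.expLe_geom b hb⟩
  obtain ⟨κ, G, -, hfin, -, -, h3, h4, -⟩ := AllHeightsLaw.result
  obtain ⟨ν₁, C₁, hν₁, hC₁, h5⟩ := h3 δ hδ
  obtain ⟨ν₂, C₂, hν₂, hC₂, h6⟩ := h4
  set ν : ℝ := min (min ν₁ ν₂) (1 / 3) with hν
  have hνa : ν ≤ ν₁ := (min_le_left _ _).trans (min_le_left _ _)
  have hνb : ν ≤ ν₂ := (min_le_left _ _).trans (min_le_right _ _)
  have hνc : ν ≤ 1 / 3 := min_le_right _ _
  have hν0 : 0 < ν := lt_min (lt_min hν₁ hν₂) (by norm_num)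
  refine ⟨ν, hν0, fun v τ ρ hv hτ hE hρ => ?_⟩
  set A₁ : ℝ → Set (ℕ × ℕ) := fun X => {t | t ∈ triples X ∧ -(2 - δ) * Real.sqrt (Real.log ((t.1 + t.2 : ℕ) : ℝ)) ≤
        T t.1 t.2 (t.1 + t.2)} with hA₁
  set A₂ : ℝ → Set (ℕ × ℕ) := fun X => {t | t ∈ triples X ∧ (rad (t.1 * t.2 * (t.1 + t.2)) : ℝ) ≤
        ((t.1 + t.2 : ℕ) : ℝ) ^ (1 - 1 / Real.sqrt (Real.log ((t.1 + t.2 : ℕ) : ℝ)))} with hA₂
  obtain ⟨E, hE1, hE2⟩ := Pool.Agent.Y854.GM.windows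
    {t : ℕ × ℕ | 0 < t.1 ∧ t.1 ≤ t.2 ∧ Nat.Coprime t.1 t.2 ∧
      ((rad (t.1 * t.2 * (t.1 + t.2)) : ℝ) ≤
        ((t.1 + t.2 : ℕ) : ℝ) ^ (1 - 1 / Real.sqrt (Real.log ((t.1 + t.2 : ℕ) : ℝ))) ∨
      -(2 - δ) * Real.sqrt (Real.log ((t.1 + t.2 : ℕ) : ℝ)) ≤ T t.1 t.2 (t.1 + t.2))}
    (fun t => (rad (t.1 * t.2 * (t.1 + t.2)) : ℝ)) (s := 2 / 3 - ν) hv hτ hE (by linarith) hρ (by
      intro ε hε
      refine ⟨C₁ + C₂, fun X hX => ?_⟩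
      have hX0 : 0 < X := by linarith
      have hsub : {t : ℕ × ℕ | t ∈ {t : ℕ × ℕ | 0 < t.1 ∧ t.1 ≤ t.2 ∧ Nat.Coprime t.1 t.2 ∧
          ((rad (t.1 * t.2 * (t.1 + t.2)) : ℝ) ≤
            ((t.1 + t.2 : ℕ) : ℝ) ^ (1 - 1 / Real.sqrt (Real.log ((t.1 + t.2 : ℕ) : ℝ))) ∨
          -(2 - δ) * Real.sqrt (Real.log ((t.1 + t.2 : ℕ) : ℝ)) ≤ T t.1 t.2 (t.1 + t.2))} ∧
          (rad (t.1 * t.2 * (t.1 + t.2)) : ℝ) ≤ X} ⊆ A₁ X ∪ A₂ X := by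
        rintro t ⟨⟨k1, k2, k3, k4⟩, k5⟩
        rcases k4 with k4 | k4
        · exact Or.inr ⟨⟨k1, k2, k3, k5⟩, k4⟩
        · exact Or.inl ⟨⟨k1, k2, k3, k5⟩, k4⟩
      have hf : (A₁ X ∪ A₂ X).Finite :=
        (hfin X).subset (Set.union_subset (fun t ht => ht.1) (fun t ht => ht.1))
      refine ⟨hf.subset hsub, ?_⟩
      have k1 := h5 X hX
      have k2 := h6 X hX
      have k3 : X ^ (2 / 3 - ν₁) ≤ X ^ (2 / 3 - ν + ε) := Real.rpow_le_rpow_of_exponent_le hX (by linarith)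
      have k4 : X ^ (2 / 3 - ν₂) ≤ X ^ (2 / 3 - ν + ε) := Real.rpow_le_rpow_of_exponent_le hX (by linarith)
      have k5 : (({t : ℕ × ℕ | t ∈ {t : ℕ × ℕ | 0 < t.1 ∧ t.1 ≤ t.2 ∧ Nat.Coprime t.1 t.2 ∧
          ((rad (t.1 * t.2 * (t.1 + t.2)) : ℝ) ≤
            ((t.1 + t.2 : ℕ) : ℝ) ^ (1 - 1 / Real.sqrt (Real.log ((t.1 + t.2 : ℕ) : ℝ))) ∨
          -(2 - δ) * Real.sqrt (Real.log ((t.1 + t.2 : ℕ) : ℝ)) ≤ T t.1 t.2 (t.1 + t.2))} ∧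
          (rad (t.1 * t.2 * (t.1 + t.2)) : ℝ) ≤ X}.ncard : ℕ) : ℝ) ≤ ((A₁ X).ncard : ℝ) + (A₂ X).ncard := by
        have := (Set.ncard_le_ncard hsub hf).trans (Set.ncard_union_le _ _)
        exact_mod_cast this
      refine k5.trans ?_
      rw [add_mul]
      exact add_le_add (k1.trans (mul_le_mul_of_nonneg_left k3 hC₁.le))
        (k2.trans (mul_le_mul_of_nonneg_left k4 hC₂.le)))
  refine ⟨E, hE1, fun α hα hαE => ?_⟩
  obtain ⟨i₀, hi₀⟩ := hE2 α hα hαE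
  refine ⟨i₀, fun i hi a b ha hab hco hwin => ?_⟩
  by_contra hcon
  have h7 : (rad (a * b * (a + b)) : ℝ) ≤
        ((a + b : ℕ) : ℝ) ^ (1 - 1 / Real.sqrt (Real.log ((a + b : ℕ) : ℝ))) ∨
      -(2 - δ) * Real.sqrt (Real.log ((a + b : ℕ) : ℝ)) ≤ T a b (a + b) := by
    by_contra h8
    push Not at h8
    exact hcon h8
  exact absurd hwin (not_le.2 (hi₀ i hi (a, b) ⟨ha, hab, hco, h7⟩))

end Pool.Agent.Results.MP_4ab349_nt.RadicalsInWindows
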