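import Pool.Agent.X16.NW.AB
import Pool.Agent.X16.NW.F

/-!
# `T(a, b, c)` is negative for all the abc-triples with a member near the powers of almost all real numbers

For almost all real `t > 1` and `0 ≤ θ < 13 / 28`, for all large `n`, EVERY abc-triple with `|c - t ^ n| ≤ t ^ (θ n)` has
`T(a, b, c) < 0`, that is `rad(abc) > c`. More generally `T(a, b, c) < - η √(log c) - K` for every `0 ≤ η < 7 / 9` and
every `K`, that is `rad(abc) > c ^ (1 + η)` with any constant, when `15 / 28` is replaced by an explicit exponent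
`f (η) < 1`, for `θ < 1 - f (η)`. The same holds for the triples with a member `m` in the window and `c ≤ m ^ A`, with
`A f(η)` instead of `f (η)`. The exceptional `t` have Hausdorff dimension at most `A f(η) / (1 - θ)`.

The same is true for `t ^ κ_n` with real exponents such that `κ_n / log n → ∞`, and for the numbers `n ^ t` for almost all
`t > 1 / (1 - A f(η) - θ)`; in general for families of functions `f_n : I → ℝ` whose logarithmic slopes are locally bounded
from below by positive constants and which are locally bounded from below by sequences with exponent of convergence at most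
`τ`. The starting result `SequenceMembers` is about the linear families `t v_n`.
-/

set_option autoImplicit false

namespace Pool.Agent.Results.MP_4ab349_nt.RealPowers

open Finset Filter
open Pool.Agent.X16.NW (ExpLe Expanding LocExpanding AlongFamilies AlmostAllPowers)

/-- the product of the primes dividing `n` -/
def rad (n : ℕ) : ℕ := ∏ p ∈ n.primeFactors, p

/-- `T(a, b, c) = log (c / rad(abc)) / √(log c)` -/
noncomputable def T (a b c : ℕ) : ℝ :=
  Real.log ((c : ℝ) / (rad (a * b * c) : ℝ)) / Real.sqrt (Real.log c)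

/-- increasing from `15 / 28` for `η = 0` to `1` for `η = 7 / 9`: equal to `5 (10 η + 9) / 84` for `η ≤ 1 / 2` and to
`(9 η + 8) / 15` for `η > 1 / 2` -/
noncomputable def f (η : ℝ) : ℝ := if η ≤ 1 / 2 then 5 * (10 * η + 9) / 84 else (9 * η + 8) / 15

/-- every abc-triple `(a, b, a + b)` with `a + b ≤ m ^ A` one of whose members is `m` satisfies
`T(a, b, a + b) < - η √(log (a + b)) - K` -/
def Good (A η K : ℝ) (m : ℕ) : Prop :=
  ∀ a b : ℕ, 0 < a → 0 < b → Nat.Coprime a b → (a = m ∨ b = m ∨ a + b = m) →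
    ((a + b : ℕ) : ℝ) ≤ (m : ℝ) ^ A →
      T a b (a + b) < - η * Real.sqrt (Real.log ((a + b : ℕ) : ℝ)) - K / Real.sqrt (Real.log ((a + b : ℕ) : ℝ))

lemma Fx_eq (η : ℝ) (h0 : 0 ≤ η) (h1 : η < 7 / 9) : Pool.Agent.W221.ABC7.Fx (1 + η) = f η := by
  unfold Pool.Agent.W221.ABC7.Fx f
  rcases h0.eq_or_lt with h | h
  · subst h
    norm_num
  · rw [if_neg (show ¬ (1 + η ≤ 2 / 3) by linarith), if_neg (show ¬ (1 + η ≤ 1) by linarith)]
    by_cases h2 : η ≤ 1 / 2
    · rw [if_pos (show 1 + η ≤ 3 / 2 by linarith), if_pos h2]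
      ring
    · rw [if_neg (show ¬ (1 + η ≤ 3 / 2) by linarith), if_pos (show 1 + η ≤ 16 / 9 by linarith), if_neg h2]
      ring

lemma rad_pos (n : ℕ) : 0 < rad n :=
  Finset.prod_pos fun _ hp => (Nat.prime_of_mem_primeFactors hp).pos

lemma good_of (A η K : ℝ) (m : ℕ) (h : m ∉ Pool.Agent.X16.NW.AB.Bad (Real.exp K) (1 + η) A) : Good A η K m := by
  intro a b ha hb hab hmem hht
  have hc2 : 2 ≤ a + b := by omega
  have hc : (1 : ℝ) < ((a + b : ℕ) : ℝ) := by exact_mod_cast (by omega : 1 < a + b)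
  have hc0 : (0 : ℝ) < ((a + b : ℕ) : ℝ) := by linarith
  have hl : 0 < Real.log ((a + b : ℕ) : ℝ) := Real.log_pos hc
  have hs : 0 < Real.sqrt (Real.log ((a + b : ℕ) : ℝ)) := Real.sqrt_pos.mpr hl
  have hr : (0 : ℝ) < (rad (a * b * (a + b)) : ℝ) := by exact_mod_cast rad_pos _
  have hbig : Real.exp K * ((a + b : ℕ) : ℝ) ^ (1 + η) < (rad (a * b * (a + b)) : ℝ) := by
    by_contra hcon
    push Not at hcon
    exact h ⟨a, b, ha, hb, hab, hmem, hht, hcon⟩
  have h1 := Real.log_lt_log (by positivity) hbig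
  rw [Real.log_mul (Real.exp_pos K).ne' (Real.rpow_pos_of_pos hc0 _).ne', Real.log_exp,
    Real.log_rpow hc0] at h1
  unfold T
  rw [Real.log_div hc0.ne' hr.ne', div_lt_iff₀ hs]
  have hss : Real.sqrt (Real.log ((a + b : ℕ) : ℝ)) * Real.sqrt (Real.log ((a + b : ℕ) : ℝ)) =
      Real.log ((a + b : ℕ) : ℝ) := Real.mul_self_sqrt hl.le
  have h2 : (-η * Real.sqrt (Real.log ((a + b : ℕ) : ℝ)) - K / Real.sqrt (Real.log ((a + b : ℕ) : ℝ))) *
      Real.sqrt (Real.log ((a + b : ℕ) : ℝ)) = -η * Real.log ((a + b : ℕ) : ℝ) - K := by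
    rw [sub_mul, div_mul_cancel₀ _ hs.ne', mul_assoc, hss]
  rw [h2]
  linarith

/-- all the integers `m` with `|m - F| ≤ F ^ θ` are `Good A η j` -/
def GoodNear (A η θ : ℝ) (j : ℕ) (F : ℝ) : Prop := ∀ m : ℕ, |(m : ℝ) - F| ≤ F ^ θ → Good A η j m

/-- **Theorem.** Let `A ≥ 1`, `0 ≤ η < 7 / 9` and `θ ≥ 0`. (1) Let `θ < 1` and let `g` be a locally expanding family on `I`
with exponent `τ ≥ 0`. For all `t ∈ I` outside a set of Hausdorff dimension at most `(A f(η) + τ) / (1 - θ)`, for each `j`,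
for all large `n`, all the integers `m` with `|m - g_n(t)| ≤ g_n(t) ^ θ` are `Good A η j`. (2) Let `A f(η) + θ < 1`. If
`κ_n / log n → ∞` this holds with `t ^ κ_n` for almost all `t > 1`, and it holds with `n ^ t` for almost all
`t > 1 / (1 - A f(η) - θ)`. (3) `t ^ κ_n` is locally expanding on `(1, ∞)` with `τ = 0` if `κ_n / log n → ∞`, and `n ^ t` on
`[a, ∞)` with `τ = 1 / a`. -/
theorem result :
    (∀ A η θ : ℝ, 1 ≤ A → 0 ≤ η → η < 7 / 9 → 0 ≤ θ → θ < 1 → AlongFamilies (A * f η) θ (GoodNear A η θ)) ∧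
    (∀ A η θ : ℝ, 1 ≤ A → 0 ≤ η → η < 7 / 9 → 0 ≤ θ → A * f η + θ < 1 →
      AlmostAllPowers (A * f η) θ (GoodNear A η θ)) ∧
    (∀ κ : ℕ → ℝ, Tendsto (fun n : ℕ => κ n / Real.log n) atTop atTop →
      LocExpanding (fun n t => t ^ κ n) (Set.Ioi 1) 0) ∧
    (∀ a : ℝ, 0 < a → LocExpanding (fun n t => (n : ℝ) ^ t) (Set.Ici a) (1 / a)) := by
  have hf : ∀ η : ℝ, 0 ≤ η → 0 ≤ f η := by
    intro η hη
    unfold f
    split_ifs <;> positivity
  have h1 : ∀ A η θ : ℝ, 1 ≤ A → 0 ≤ η → η < 7 / 9 → 0 ≤ θ → θ < 1 →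
      AlongFamilies (A * f η) θ (GoodNear A η θ) := by
    intro A η θ hA hη hη1 hθ hθ1
    refine Pool.Agent.X16.NW.along_families
      (fun j : ℕ => Pool.Agent.X16.NW.AB.Bad (Real.exp j) (1 + η) A) (fun m : ℕ => (m : ℝ)) _ θ
      (mul_nonneg (by linarith) (hf η hη)) hθ hθ1 (fun j ε hε => ?_) _ ?_
    · refine Pool.Agent.X16.NW.count_filter _ (mul_nonneg (by linarith) (hf η hη)) (fun δ hδ => ?_) ε hε
      have h2 := Pool.Agent.X16.NW.AB.count (Real.exp j) (1 + η) A (by linarith) (by linarith) δ hδ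
      rw [Fx_eq η hη hη1] at h2
      exact h2
    · intro j F h m hm
      refine good_of A η j m fun hbad => absurd (h m hbad) (not_lt.2 hm)
  exact ⟨h1, fun A η θ hA hη hη1 hθ hθ1 => Pool.Agent.X16.NW.ae_powers_of
    (mul_nonneg (by linarith) (hf η hη)) hθ1 (Pool.Agent.X16.NW.along_powers_of (h1 A η θ hA hη hη1 hθ
      (by linarith [mul_nonneg (show (0 : ℝ) ≤ A by linarith) (hf η hη)]))), fun κ hκ => Pool.Agent.X16.NW.loc_rpow κ hκ, fun a ha => Pool.Agent.X16.NW.loc_npow a ha⟩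

end Pool.Agent.Results.MP_4ab349_nt.RealPowers
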