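import Pool.Agent.Results.MP_4ab349_nt.ExceptionalSet
import Pool.Agent.X174.WinQ

/-!
# ALL abc-triples in squares around thin sequences of points

Let `v ≥ 1` be a sequence of exponent of convergence at most `τ` (for `v_i = (i + 1) ^ a` this is `1 / a`, for `v_i = b ^ i`
it is `0`) and `ρ < 1`. Outside a set of `(x, y) ∈ ℝ²` of Hausdorff dimension at most `(15/28 + τ) / (1 - ρ)` the following
holds for all but finitely many `i`: ALL coprime positive integers `a`, `b` with `|a - x v_i| ≤ v_i ^ ρ` and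
`|b - y v_i| ≤ v_i ^ ρ` satisfy `T(a, b, a + b) < 0`, that is `rad (a b (a + b)) > a + b`. The number of exceptions is from
the starting result `ExceptionalSet`.
-/

set_option autoImplicit false

namespace Pool.Agent.Results.MP_4ab349_nt.TriplesInSquares

open ExceptionalSet (rad T exceptions)

/-- the exponent of convergence of the sequence `v` is at most `τ` -/
def ExpLe (v : ℕ → ℝ) (τ : ℝ) : Prop := ∀ t : ℝ, τ < t → Summable (fun n : ℕ => (v n) ^ (-t))

/-- **Theorem.** For every sequence `v ≥ 1` of exponent of convergence at most `τ ≥ 0` and every `ρ < 1` there is a set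
`E ⊂ ℝ²` of Hausdorff dimension at most `(15/28 + τ) / (1 - ρ)` such that for each `x = (x_0, x_1)` outside `E`, for all but
finitely many `i`, ALL coprime positive integers `a`, `b` with `|a - x_0 v_i| ≤ v_i ^ ρ`, `|b - x_1 v_i| ≤ v_i ^ ρ` satisfy
`T(a, b, a + b) < 0`, hence `rad (a b c) > c > c ^ (1 - 1 / √(log c))` for `c = a + b`. The sequences `v_i = (i + 1) ^ a` and
`v_i = b ^ i` have exponent of convergence at most `1 / a` and `0`. -/
theorem result :
    (∀ (v : ℕ → ℝ) (τ ρ : ℝ), (∀ i, 1 ≤ v i) → 0 ≤ τ → ExpLe v τ → ρ < 1 →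
      ∃ E : Set (Fin 2 → ℝ), dimH E ≤ ENNReal.ofReal ((15 / 28 + τ) / (1 - ρ)) ∧
        ∀ x : Fin 2 → ℝ, x ∉ E → ∃ i₀ : ℕ, ∀ i : ℕ, i₀ ≤ i → ∀ a b : ℕ, 0 < a → 0 < b → a.Coprime b →
          |(a : ℝ) - x 0 * v i| ≤ (v i) ^ ρ → |(b : ℝ) - x 1 * v i| ≤ (v i) ^ ρ →
            T a b (a + b) < 0 ∧ ((a + b : ℕ) : ℝ) < (rad (a * b * (a + b)) : ℝ) ∧
            ((a + b : ℕ) : ℝ) ^ (1 - 1 / Real.sqrt (Real.log ((a + b : ℕ) : ℝ))) < (rad (a * b * (a + b)) : ℝ)) ∧
    (∀ a : ℝ, 0 < a → ExpLe (fun n : ℕ => ((n : ℝ) + 1) ^ a) (1 / a)) ∧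
    (∀ b : ℝ, 1 < b → ExpLe (fun n : ℕ => b ^ n) 0) := by
  refine ⟨fun v τ ρ hv hτ hE hρ => ?_, fun κ hκ => Pool.Agent.Y854.GM.expLe_pow κ hκ,
    fun b hb => Pool.Agent.Y854.GM.expLe_geom b hb⟩
  obtain ⟨E, hE1, hE2⟩ := Pool.Agent.X174.winFamE (κ := Fin 2) (Q := ℕ × ℕ)
    (fun p j => if j = 0 then (p.1 : ℝ) else (p.2 : ℝ))
    (fun T => exceptions (2 * T)) (s := 15 / 28) (by norm_num)
    (fun ε hε => by
      obtain ⟨C, hC⟩ := ExceptionalSet.result ε hε
      refine ⟨|C| * 2 ^ (15 / 28 + ε), fun T hT => ?_⟩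
      obtain ⟨h1, h2⟩ := hC (2 * T) (by linarith)
      refine ⟨h1, h2.trans ?_⟩
      calc C * (2 * T) ^ (15 / 28 + ε) ≤ |C| * (2 * T) ^ (15 / 28 + ε) :=
            mul_le_mul_of_nonneg_right (le_abs_self C) (by positivity)
        _ = |C| * 2 ^ (15 / 28 + ε) * T ^ (15 / 28 + ε) := by
            rw [Real.mul_rpow (by norm_num) (by linarith)]
            ring)
    hv hτ hE hρ
  refine ⟨E, hE1, fun x hx => ?_⟩
  obtain ⟨R, hR, hRc⟩ := Pool.Agent.X174.le_of_cube x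
  obtain ⟨i₀, hi₀⟩ := hE2 x hx R hR
  refine ⟨i₀, fun i hi a b ha hb hab hax hbx => ?_⟩
  have hcube : ∀ j : Fin 2, |(fun (p : ℕ × ℕ) (j : Fin 2) => if j = 0 then (p.1 : ℝ) else (p.2 : ℝ)) (a, b) j -
      x j * v i| ≤ (v i) ^ ρ := by
    intro j
    fin_cases j
    · simpa using hax
    · simpa using hbx
  have hT : T a b (a + b) < 0 := by
    by_contra hcon
    push Not at hcon
    refine hi₀ i hi (a, b) hcube ⟨ha, hb, hab, ?_, hcon⟩
    have h1 := hRc _ (v i) ρ (hv i) hρ hcube 0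
    have h2 := hRc _ (v i) ρ (hv i) hρ hcube 1
    simp only [if_true, Nat.abs_cast] at h1
    simp only [one_ne_zero, if_false, Nat.abs_cast] at h2
    push_cast
    linarith
  have hc : (1 : ℝ) < ((a + b : ℕ) : ℝ) := by
    have : 1 < a + b := by omega
    exact_mod_cast this
  have hl : 0 < Real.log ((a + b : ℕ) : ℝ) := Real.log_pos hc
  have hs : 0 < Real.sqrt (Real.log ((a + b : ℕ) : ℝ)) := Real.sqrt_pos.mpr hl
  have hr : (0 : ℝ) < rad (a * b * (a + b)) := by exact_mod_cast ExceptionalSet.rad_pos _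
  have h3 : ((a + b : ℕ) : ℝ) < (rad (a * b * (a + b)) : ℝ) := by
    by_contra hcon
    push Not at hcon
    have h4 : 0 ≤ T a b (a + b) := by
      unfold ExceptionalSet.T
      apply div_nonneg _ hs.le
      apply Real.log_nonneg
      rw [le_div_iff₀ hr, one_mul]
      exact hcon
    linarith
  refine ⟨hT, h3, lt_of_le_of_lt ?_ h3⟩
  calc ((a + b : ℕ) : ℝ) ^ (1 - 1 / Real.sqrt (Real.log ((a + b : ℕ) : ℝ))) ≤ ((a + b : ℕ) : ℝ) ^ (1 : ℝ) := by
        apply Real.rpow_le_rpow_of_exponent_le hc.le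
        have : 0 < 1 / Real.sqrt (Real.log ((a + b : ℕ) : ℝ)) := by positivity
        linarith
    _ = ((a + b : ℕ) : ℝ) := Real.rpow_one _

end Pool.Agent.Results.MP_4ab349_nt.TriplesInSquares
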