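import Pool.Agent.Results.MP_4ab349_nt.ExceptionalSet
import Pool.Agent.X123.MT.Null

/-!
# The lower bound for `rad (abc)` for the triples near the points outside a small set

Let `s` be any map from the abc-triples to a metric space, for example the real or the `p`-adic number `a / c`. For
`τ > 0` all points `z` outside a set of Hausdorff dimension at most `(15 / 28) / τ` have the property that for every
`B` all but finitely many abc-triples with `|z - s(a, b, c)| ≤ c ^ (-τ)` satisfy `rad (abc) > B c`, hence also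
`rad (abc) > c ^ (1 - 1 / √(log c))` and `T(a, b, c) < 0`. For `τ > 15 / 28` these are almost all real numbers `z`.
-/

set_option autoImplicit false

open scoped ENNReal

namespace Pool.Agent.Results.MP_4ab349_nt.TriplesNearTargets

open ExceptionalSet (rad T rad_pos)
open Pool.Agent.X123.MT MeasureTheory

/-- for every `B`, all abc-triples `(a, b, c)`, `c = a + b`, with `c > C₀` and `|z - s(a, b)| ≤ c ^ (-τ)` satisfy
`rad (abc) > B c`, the inequality `rad (abc) > c ^ (1 - 1 / √(log c))` of Q1 and `T(a, b, c) < 0` -/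
def Good {M : Type} [MetricSpace M] (s : ℕ × ℕ → M) (τ : ℝ) (z : M) : Prop :=
  ∀ B : ℝ, ∃ C₀ : ℝ, ∀ a b : ℕ, 0 < a → 0 < b → a.Coprime b → C₀ < ((a + b : ℕ) : ℝ) →
    dist z (s (a, b)) ≤ ((a + b : ℕ) : ℝ) ^ (-τ) →
      B * ((a + b : ℕ) : ℝ) < (rad (a * b * (a + b)) : ℝ) ∧
      ((a + b : ℕ) : ℝ) ^ (1 - 1 / Real.sqrt (Real.log ((a + b : ℕ) : ℝ))) <
        (rad (a * b * (a + b)) : ℝ) ∧
      T a b (a + b) < 0

/-- the triples with `rad (abc) ≤ B c` -/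
def Exc (B : ℝ) : Set (ℕ × ℕ) :=
  {p | 0 < p.1 ∧ 0 < p.2 ∧ p.1.Coprime p.2 ∧
    (rad (p.1 * p.2 * (p.1 + p.2)) : ℝ) ≤ B * ((p.1 + p.2 : ℕ) : ℝ)}

lemma c_pos {B : ℝ} {p : ℕ × ℕ} (h : p ∈ Exc B) : (1 : ℝ) ≤ ((p.1 + p.2 : ℕ) : ℝ) := by
  obtain ⟨h1, h2, -⟩ := h
  have : 1 ≤ p.1 + p.2 := by omega
  exact_mod_cast this

lemma cnt (B : ℝ) : Cnt (Exc B) (fun p => Real.log ((p.1 + p.2 : ℕ) : ℝ)) (15 / 28) := by
  apply cnt_of_pow (H := fun p : ℕ × ℕ => ((p.1 + p.2 : ℕ) : ℝ))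
  · exact fun p hp => lt_of_lt_of_le one_pos (c_pos hp)
  · intro ε hε
    obtain ⟨C, h⟩ := Pool.Agent.W221.ABC7.count_FxB B 1 ε one_pos hε
    refine ⟨|C|, fun X hX => ?_⟩
    have hn : 1 ≤ ⌊X⌋₊ := Nat.le_floor (by exact_mod_cast hX)
    have hsub : (fun p : ℕ × ℕ => ((p.1, p.2, p.1 + p.2) : ℕ × ℕ × ℕ)) ''
        {p | p ∈ Exc B ∧ ((p.1 + p.2 : ℕ) : ℝ) ≤ X} ⊆ Pool.Agent.W221.ABC7.ExcB B 1 ⌊X⌋₊ := by
      rintro _ ⟨⟨a, b⟩, ⟨⟨h1, h2, h3, h4⟩, h5⟩, rfl⟩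
      refine ⟨h1, h2, h3, rfl, Nat.le_floor h5, ?_⟩
      rw [Real.rpow_one]
      exact h4
    have hinj : Function.Injective
        (fun p : ℕ × ℕ => ((p.1, p.2, p.1 + p.2) : ℕ × ℕ × ℕ)) := by
      rintro ⟨a, b⟩ ⟨c, d⟩ hh
      simp only [Prod.mk.injEq] at hh
      exact Prod.ext hh.1 hh.2.1
    have hfinE := Pool.Agent.W221.ABC7.excB_finite B 1 ⌊X⌋₊
    have hfin : {p | p ∈ Exc B ∧ ((p.1 + p.2 : ℕ) : ℝ) ≤ X}.Finite :=
      Set.Finite.of_finite_image (hfinE.subset hsub) hinj.injOn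
    refine ⟨hfin, ?_⟩
    have h7 : {p | p ∈ Exc B ∧ ((p.1 + p.2 : ℕ) : ℝ) ≤ X}.ncard ≤
        (Pool.Agent.W221.ABC7.ExcB B 1 ⌊X⌋₊).ncard := by
      rw [← Set.ncard_image_of_injective {p | p ∈ Exc B ∧ ((p.1 + p.2 : ℕ) : ℝ) ≤ X} hinj]
      exact Set.ncard_le_ncard hsub hfinE
    have h8 := h ⌊X⌋₊ hn
    have hFx : Pool.Agent.W221.ABC7.Fx 1 = 15 / 28 := by
      unfold Pool.Agent.W221.ABC7.Fx
      norm_num
    rw [hFx] at h8
    have hX0 : (0 : ℝ) < X := by linarith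
    have h9 : ((⌊X⌋₊ : ℕ) : ℝ) ^ (15 / 28 + ε : ℝ) ≤ X ^ (15 / 28 + ε : ℝ) :=
      Real.rpow_le_rpow (Nat.cast_nonneg _) (Nat.floor_le hX0.le) (by positivity)
    have h10 : (0 : ℝ) ≤ ((⌊X⌋₊ : ℕ) : ℝ) ^ (15 / 28 + ε : ℝ) :=
      Real.rpow_nonneg (Nat.cast_nonneg _) _
    calc ({p | p ∈ Exc B ∧ ((p.1 + p.2 : ℕ) : ℝ) ≤ X}.ncard : ℝ)
        ≤ ((Pool.Agent.W221.ABC7.ExcB B 1 ⌊X⌋₊).ncard : ℝ) := by exact_mod_cast h7
      _ ≤ C * ((⌊X⌋₊ : ℕ) : ℝ) ^ (15 / 28 + ε : ℝ) := h8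
      _ ≤ |C| * ((⌊X⌋₊ : ℕ) : ℝ) ^ (15 / 28 + ε : ℝ) :=
          mul_le_mul_of_nonneg_right (le_abs_self C) h10
      _ ≤ |C| * X ^ (15 / 28 + ε : ℝ) := mul_le_mul_of_nonneg_left h9 (abs_nonneg C)

/-- **Theorem.** Let `τ > 0`. (1) For every map `s` from the pairs of natural numbers to a metric space there is a set
`E` of Hausdorff dimension at most `(15 / 28) / τ` such that for each `z` outside `E` and every `B` all abc-triples
with sufficiently large `c` and `|z - s(a, b)| ≤ c ^ (-τ)` satisfy `rad (abc) > B c`,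
`rad (abc) > c ^ (1 - 1 / √(log c))` and `T(a, b, c) < 0`. (2) If `τ > 15 / 28` and `s` is a map to the real numbers,
this holds for almost all real `z`. -/
theorem result (τ : ℝ) (hτ : 0 < τ) :
    (∀ (M : Type) [MetricSpace M] (s : ℕ × ℕ → M),
      ∃ E : Set M, dimH E ≤ ENNReal.ofReal (15 / 28 / τ) ∧ ∀ z : M, z ∉ E → Good s τ z) ∧
    (15 / 28 < τ → ∀ s : ℕ × ℕ → ℝ, ∀ᵐ z : ℝ, Good s τ z) := by
  have main : ∀ (M : Type) [MetricSpace M] (s : ℕ × ℕ → M),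
      ∃ E : Set M, dimH E ≤ ENNReal.ofReal (15 / 28 / τ) ∧ ∀ z : M, z ∉ E → Good s τ z := by
    intro M _ s
    obtain ⟨E, hE, hE2⟩ := pos_dim (fun k : ℕ => Exc (k : ℝ))
      (fun p => Real.log ((p.1 + p.2 : ℕ) : ℝ)) (fun _ p hp => Real.log_nonneg (c_pos hp))
      (by norm_num : (0 : ℝ) ≤ 15 / 28) hτ (fun k => cnt k) s
    refine ⟨E, hE, fun z hz B => ?_⟩
    obtain ⟨k, hk⟩ := exists_nat_ge (max B 1)
    have hkB : B ≤ (k : ℝ) := (le_max_left _ _).trans hk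
    have hk1 : (1 : ℝ) ≤ (k : ℝ) := (le_max_right _ _).trans hk
    obtain ⟨C₀, hC₀⟩ := Set.Finite.bddAbove
      ((hE2 z hz k).image (fun p : ℕ × ℕ => ((p.1 + p.2 : ℕ) : ℝ)))
    refine ⟨max C₀ 1, fun a b ha hb hab hlt hdist => ?_⟩
    have hlt1 : C₀ < ((a + b : ℕ) : ℝ) := lt_of_le_of_lt (le_max_left _ _) hlt
    have hc1 : 1 < ((a + b : ℕ) : ℝ) := lt_of_le_of_lt (le_max_right _ _) hlt
    have hc0 : 0 < ((a + b : ℕ) : ℝ) := by linarith
    have key : (k : ℝ) * ((a + b : ℕ) : ℝ) < (rad (a * b * (a + b)) : ℝ) := by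
      by_contra hcon
      push Not at hcon
      refine absurd (hC₀ ⟨(a, b), ⟨⟨ha, hb, hab, hcon⟩, ?_⟩, rfl⟩) (not_le.2 hlt1)
      change dist z (s (a, b)) ≤ Real.exp (-(τ * Real.log ((a + b : ℕ) : ℝ)))
      rw [exp_eq_pow hc0]
      exact hdist
    have hrc : ((a + b : ℕ) : ℝ) < (rad (a * b * (a + b)) : ℝ) := by nlinarith
    refine ⟨by nlinarith, ?_, ?_⟩
    · refine lt_of_le_of_lt ?_ hrc
      calc ((a + b : ℕ) : ℝ) ^ (1 - 1 / Real.sqrt (Real.log ((a + b : ℕ) : ℝ)))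
          ≤ ((a + b : ℕ) : ℝ) ^ (1 : ℝ) := by
            apply Real.rpow_le_rpow_of_exponent_le hc1.le
            have : 0 ≤ 1 / Real.sqrt (Real.log ((a + b : ℕ) : ℝ)) := by positivity
            linarith
        _ = ((a + b : ℕ) : ℝ) := Real.rpow_one _
    · have hr : (0 : ℝ) < rad (a * b * (a + b)) := by exact_mod_cast rad_pos _
      apply div_neg_of_neg_of_pos
      · apply Real.log_neg (div_pos hc0 hr)
        rwa [div_lt_one hr]
      · exact Real.sqrt_pos.2 (Real.log_pos hc1)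
  refine ⟨main, fun h s => ?_⟩
  obtain ⟨E, hE, hE2⟩ := main ℝ s
  have h3 : volume E = 0 := null_real (by rwa [div_lt_one hτ]) hE
  filter_upwards [measure_eq_zero_iff_ae_notMem.1 h3] with z hz
  exact hE2 z hz

end Pool.Agent.Results.MP_4ab349_nt.TriplesNearTargets
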